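import Pool.Agent.helper24_UT.Ch16
import Pool.Agent.Helper481.Real

set_option autoImplicit false

/-!
# Primes between `x` and `x + x ^ θ`, `1 / 3 < θ ≤ 1 / 2`, for almost all elements of arbitrary sets, in all classes to all moduli

Let `1 / 3 < θ ≤ 1 / 2` (Schinzel's conjecture is about `θ = 1 / 2`), and let `A`, `C` be fixed. Let `X` be large and let `S` be an
ARBITRARY set of integers `≤ X` which is not locally concentrated: no window `[t, t + X ^ θ)` contains more than `(log X) ^ C` times the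
average number of elements of `S`. (The set may be as thin as one element in every window, `|S| = X ^ (1 - θ) / (log X) ^ C`, and the
integers, the primes, the multiples of a `q ≤ X ^ θ` are examples.) Then for all but `|S| / (log X) ^ A` of the `n ∈ S`:
(1) for all real `x` with `n ≤ x < n + 1` the number of the primes between `x` and `x + x ^ θ` is `x ^ θ / log x` with an error of at
most `x ^ θ / (log X) ^ A`;
(2) the primes are equidistributed in the reduced residue classes in mean square over ALL moduli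
`q ≤ X ^ θ exp (- B (log log X) ^ 2)`, almost up to the length of the interval, with any saving of a power of the logarithm and with the
most unfavourable initial segment of the interval in every class.

Proof. The mean square over almost all well spaced windows is `Pool.Agent.helper24_UT.Ch.t_R28` (Mikawa's method, large sieve). A set `S`
is split into classes by the rank of the elements, such that the windows at the points of one class are well spaced.
-/

namespace Pool.Agent.Results.MP_b8a134_nt.DenseSubsetsAllModuli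

open Finset Pool.Agent.Helper481

/-- the number of the primes `p` with `x < p < x + x ^ θ` -/
noncomputable def P (θ x : ℝ) : ℕ := {p : ℕ | p.Prime ∧ x < p ∧ (p : ℝ) < x + x ^ θ}.ncard

/-- the number of the primes `p ≡ r (mod q)` with `n < p ≤ n + y` (for `r < q`) -/
def count (q r n y : ℕ) : ℕ := ((Ioc n (n + y)).filter (fun p => p.Prime ∧ p % q = r)).card

/-- `∑_{n < m ≤ n + y} 1 / log m` -/
noncomputable def logSum (n y : ℕ) : ℝ := ∑ m ∈ Ioc n (n + y), 1 / Real.log (m : ℝ)

/-- For all `Q ≤ X ^ θ exp (- B (log log X) ^ 2)` and all choices of the lengths `y q r ≤ n ^ θ + 1` the sum, over all `q ≤ Q` and all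
reduced residues `r` modulo `q`, of the squares of `count q r n y - logSum n y / φ(q)`, `y = y q r`, is at most
`X ^ (2 θ) / (log X) ^ A`. -/
def Classes (θ : ℝ) (A B X n : ℕ) : Prop := ∀ Q : ℕ, (Q : ℝ) ≤ (X : ℝ) ^ θ * Real.exp (-(B * Real.log (Real.log X) ^ 2)) →
  ∀ y : ℕ → ℕ → ℕ, (∀ q r, (y q r : ℝ) ≤ (n : ℝ) ^ θ + 1) →
    ∑ q ∈ Icc 1 Q, ∑ r ∈ (range q).filter (fun r => r.Coprime q),
      ((count q r n (y q r) : ℝ) - logSum n (y q r) / Nat.totient q) ^ 2 ≤ ((X : ℝ) ^ θ) ^ 2 / (Real.log X) ^ A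

/-- the two assertions for one integer `n` -/
def Holds (θ : ℝ) (A B X n : ℕ) : Prop :=
  (∀ x : ℝ, (n : ℝ) ≤ x → x < n + 1 → |(P θ x : ℝ) - x ^ θ / Real.log x| ≤ x ^ θ / (Real.log X) ^ A) ∧ Classes θ A B X n

/-- the conditions for `X` -/
lemma large (θ : ℝ) (hθ : 1 / 3 < θ) (A C B : ℕ) : ∃ X₀ : ℕ, ∀ X : ℕ, X₀ ≤ X →
    8 ≤ Real.log X ∧ 100 ≤ (X : ℝ) ^ θ ∧ 6 * (Real.log X) ^ (2 * A + 2 * C + 4) ≤ (X : ℝ) ^ θ ∧
      1 ≤ (X : ℝ) ^ θ * Real.exp (-(B * Real.log (Real.log X) ^ 2)) := by
  have hlog : Filter.Tendsto (fun N : ℕ => Real.log (N : ℝ)) Filter.atTop Filter.atTop :=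
    Real.tendsto_log_atTop.comp tendsto_natCast_atTop_atTop
  have hcast := tendsto_natCast_atTop_atTop (R := ℝ)
  have e1 : ∀ᶠ N : ℕ in Filter.atTop, 8 ≤ Real.log N := hlog.eventually_ge_atTop _
  have e2 : ∀ᶠ N : ℕ in Filter.atTop, 100 ≤ (N : ℝ) ^ θ :=
    hcast.eventually ((tendsto_rpow_atTop (by linarith)).eventually_ge_atTop 100)
  have e3 : ∀ᶠ x : ℝ in Filter.atTop, ‖Real.log x ^ (2 * A + 2 * C + 4)‖ ≤ 1 / 6 * ‖x ^ θ‖ := by
    have := isLittleO_log_rpow_rpow_atTop (s := θ) ((2 * A + 2 * C + 4 : ℕ) : ℝ) (by linarith)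
    have h2 := this.bound (show (0 : ℝ) < 1 / 6 by norm_num)
    filter_upwards [h2] with x hx
    rw [Real.rpow_natCast] at hx
    exact hx
  have e4 : ∀ᶠ x : ℝ in Filter.atTop, ‖Real.log x ^ 2‖ ≤ 1 / (3 * (B + 1) : ℝ) * ‖x‖ :=
    (Real.isLittleO_pow_log_id_atTop (n := 2)).bound (by positivity)
  have e3' := hcast.eventually e3
  have e4' := hlog.eventually e4
  obtain ⟨N₁, hN₁⟩ := Filter.eventually_atTop.1 ((e1.and e2).and (e3'.and e4'))
  refine ⟨N₁, fun X hX => ?_⟩
  obtain ⟨⟨h1, h2⟩, h3, h4⟩ := hN₁ X hX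
  refine ⟨h1, h2, ?_, ?_⟩
  · rw [Real.norm_eq_abs, Real.norm_eq_abs, abs_of_nonneg (by positivity), abs_of_nonneg (by positivity)] at h3
    linarith
  · have hX0 : (0 : ℝ) < X := by
      rcases Nat.eq_zero_or_pos X with h | h
      · subst h
        norm_num at h1
      · exact_mod_cast h
    rw [Real.norm_eq_abs, Real.norm_eq_abs, abs_of_nonneg (by positivity), abs_of_nonneg (by linarith)] at h4
    have hB : (0 : ℝ) ≤ B := Nat.cast_nonneg B
    have h5 : 3 * (B + 1) * Real.log (Real.log X) ^ 2 ≤ Real.log X := by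
      rw [one_div, inv_mul_eq_div, le_div_iff₀ (by positivity)] at h4
      linarith
    rw [Real.rpow_def_of_pos hX0, ← Real.exp_add]
    apply Real.one_le_exp
    nlinarith [sq_nonneg (Real.log (Real.log X)), mul_nonneg hB (sq_nonneg (Real.log (Real.log X)))]

open Classical in
/-- **Primes between `x` and `x + x ^ θ` for almost all elements of arbitrary sets, in all classes to all moduli.** -/
theorem result (θ : ℝ) (hθ : 1 / 3 < θ) (hθ' : θ ≤ 1 / 2) (A C : ℕ) : ∃ B X₀ : ℕ, ∀ X : ℕ, X₀ ≤ X →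
    ∀ (S : Finset ℕ) (R : ℕ), (∀ s ∈ S, s ≤ X) → 1 ≤ R →
    (∀ t : ℕ, (S.filter (fun s => t ≤ s ∧ (s : ℝ) < t + (X : ℝ) ^ θ)).card ≤ R) →
    (X : ℝ) ^ (1 - θ) * R ≤ S.card * (Real.log X) ^ C →
    ((S.filter (fun n => ¬ Holds θ A B X n)).card : ℝ) ≤ S.card / (Real.log X) ^ A := by
  obtain ⟨e, he1, he⟩ : ∃ e : ℕ, 1 ≤ e ∧ (1 / 3 + 1 / e : ℝ) ≤ θ := by
    refine ⟨⌈1 / (θ - 1 / 3)⌉₊, ?_, ?_⟩
    · apply Nat.one_le_iff_ne_zero.2
      have : 0 < ⌈1 / (θ - 1 / 3)⌉₊ := Nat.ceil_pos.2 (by
        have : 0 < θ - 1 / 3 := by linarith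
        positivity)
      omega
    · have h0 : 0 < θ - 1 / 3 := by linarith
      have h1 := Nat.le_ceil (1 / (θ - 1 / 3))
      have h2 : 1 / ((⌈1 / (θ - 1 / 3)⌉₊ : ℕ) : ℝ) ≤ θ - 1 / 3 := by
        rw [one_div_le (lt_of_lt_of_le (by positivity) h1) h0]
        exact h1
      linarith
  obtain ⟨B, X₁, hmain⟩ := Thin.dense_form (θ := 1 / 3) Pool.Agent.helper24_UT.Ch.t_R28 e (2 * C + 4 * A + 5) (C + 1) he1
  obtain ⟨X₂, hlarge⟩ := large θ hθ (2 * A + 2) (2 * C + 4) B
  refine ⟨B, max (max X₁ X₂) 1, fun X hX S R hS hR hwin hdens => ?_⟩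
  have hX1 : X₁ ≤ X := (le_max_left _ _).trans ((le_max_left _ _).trans hX)
  obtain ⟨hL8, hW100, hLW, hQ1⟩ := hlarge X ((le_max_right _ _).trans ((le_max_left _ _).trans hX))
  have hXone : (1 : ℝ) ≤ X := by exact_mod_cast ((le_max_right _ _).trans hX)
  have hX0 : (0 : ℝ) < X := by linarith
  set L := Real.log X with hL
  set W := (X : ℝ) ^ θ with hW
  have hL0 : 0 < L := by linarith
  have hW0 : 0 < W := by linarith
  have hone : ∀ n : ℕ, 1 ≤ L ^ n := fun n => one_le_pow₀ (by linarith)
  have hpowle : ∀ {a b : ℕ}, a ≤ b → L ^ a ≤ L ^ b := fun h => pow_le_pow_right₀ (by linarith) h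
  -- `W ≤ √X`
  have hWX : W * W ≤ X := by
    rw [hW, ← Real.rpow_add hX0]
    calc (X : ℝ) ^ (θ + θ) ≤ (X : ℝ) ^ (1 : ℝ) := Real.rpow_le_rpow_of_exponent_le hXone (by linarith)
      _ = X := Real.rpow_one _
  have hWY : W * (X : ℝ) ^ (1 - θ) = X := by
    rw [hW, ← Real.rpow_add hX0]
    norm_num
  have hWle : W ≤ (X : ℝ) ^ (1 - θ) := by
    rw [hW]
    exact Real.rpow_le_rpow_of_exponent_le hXone (by linarith)
  set V := (X : ℝ) ^ (1 - θ) with hV
  have hV0 : 0 < V := by positivity
  have hR0 : (0 : ℝ) < R := by exact_mod_cast hR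
  have hS0 : (0 : ℝ) ≤ S.card := Nat.cast_nonneg _
  -- the length of the windows
  obtain ⟨K, hK1, hK2⟩ : ∃ K : ℕ, W + 2 ≤ K ∧ (K : ℝ) ≤ W + 3 := by
    refine ⟨⌈W⌉₊ + 2, ?_, ?_⟩
    · push_cast
      linarith [Nat.le_ceil W]
    · push_cast
      linarith [Nat.ceil_lt_add_one hW0.le]
  obtain ⟨k, hk1, hk2⟩ : ∃ k : ℕ, W - 1 < k ∧ (k : ℝ) ≤ W := ⟨⌊W⌋₊, by linarith [Nat.lt_floor_add_one W], Nat.floor_le hW0.le⟩
  have hkpos : 0 < k := by
    have : (0 : ℝ) < k := by linarith
    exact_mod_cast this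
  have hK0 : (0 : ℝ) < K := by linarith
  have hK2W : (K : ℝ) ≤ 2 * W := by linarith
  -- application of the main theorem
  have hexc := hmain X hX1 K ?_ ?_ S (2 * R) hS (by omega) ?_ ?_
  rotate_left
  · calc (X : ℝ) ^ (1 / 3 + 1 / e : ℝ) ≤ (X : ℝ) ^ θ := Real.rpow_le_rpow_of_exponent_le hXone he
      _ ≤ K := by linarith
  · -- `K L ^ m ≤ X`
    have h1 : L ^ (C + 1 + (2 * C + 4 * A + 5) + 1) ≤ W / 6 := by
      have h2 : L ^ (C + 1 + (2 * C + 4 * A + 5) + 1) ≤ L ^ (2 * (2 * A + 2) + 2 * (2 * C + 4) + 4) := hpowle (by omega)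
      linarith
    calc (K : ℝ) * L ^ (C + 1 + (2 * C + 4 * A + 5) + 1) ≤ (2 * W) * (W / 6) := mul_le_mul hK2W h1 (by positivity) (by positivity)
      _ ≤ W * W := by nlinarith
      _ ≤ X := hWX
  · intro x
    have h1 : S.filter (fun s => x ≤ s ∧ s < x + K) ⊆ (S.filter (fun s => x ≤ s ∧ (s : ℝ) < x + W)) ∪
        (S.filter (fun s => x + k ≤ s ∧ (s : ℝ) < ((x + k : ℕ) : ℝ) + W)) := by
      intro s hs
      rw [mem_filter] at hs
      rw [mem_union, mem_filter, mem_filter]
      rcases lt_or_ge (s : ℝ) (x + W) with h2 | h2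
      · left
        exact ⟨hs.1, hs.2.1, h2⟩
      · right
        refine ⟨hs.1, ?_, ?_⟩
        · have : ((x + k : ℕ) : ℝ) ≤ s := by
            push_cast
            linarith
          exact_mod_cast this
        · have h3 : (s : ℝ) < ((x + K : ℕ) : ℝ) := by exact_mod_cast hs.2.2
          push_cast at h3 ⊢
          linarith
    have h4 := (card_le_card h1).trans (card_union_le _ _)
    have h5 := hwin x
    have h6 := hwin (x + k)
    omega
  · calc (X : ℝ) * ((2 * R : ℕ) : ℝ) = 2 * (W * (V * R)) := by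
          rw [← hWY]
          push_cast
          ring
      _ ≤ 2 * (W * (S.card * L ^ C)) := by
          apply mul_le_mul_of_nonneg_left _ (by norm_num)
          exact mul_le_mul_of_nonneg_left hdens hW0.le
      _ = S.card * W * (L ^ C * 2) := by ring
      _ ≤ S.card * K * (L ^ C * L) := by
          apply mul_le_mul _ _ (by positivity) (by positivity)
          · exact mul_le_mul_of_nonneg_left (by linarith) hS0
          · exact mul_le_mul_of_nonneg_left (by linarith) (by positivity)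
      _ = _ := by rw [pow_succ]
  -- the small elements
  set D := C + A + 2 with hD
  set T := ⌊(X : ℝ) / L ^ D⌋₊ with hT
  have hTle : (T : ℝ) ≤ X / L ^ D := Nat.floor_le (by positivity)
  have hTlt : (X : ℝ) / L ^ D < T + 1 := Nat.lt_floor_add_one _
  have hsmall : ((S.filter (fun s => s ≤ T)).card : ℝ) ≤ (1 / 2) * (S.card / L ^ A) := by
    have h1 : ∀ x : ℕ, ((S.filter (fun s => x ≤ s ∧ s < x + k)).card : ℝ) ≤ R := by
      intro x
      have h2 : S.filter (fun s => x ≤ s ∧ s < x + k) ⊆ S.filter (fun s => x ≤ s ∧ (s : ℝ) < x + W) := by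
        intro s hs
        rw [mem_filter] at hs ⊢
        refine ⟨hs.1, hs.2.1, ?_⟩
        have h3 : (s : ℝ) < ((x + k : ℕ) : ℝ) := by exact_mod_cast hs.2.2
        push_cast at h3
        linarith
      exact_mod_cast (card_le_card h2).trans (hwin x)
    have h4 := Thin.small_card hkpos h1 T
    have h5 : (T : ℝ) / k + 1 ≤ 3 * (V / L ^ D) := by
      have h6 : (T : ℝ) / k ≤ 2 * (V / L ^ D) := by
        rw [div_le_iff₀ (by exact_mod_cast hkpos)]
        calc (T : ℝ) ≤ X / L ^ D := hTle
          _ = (V / L ^ D) * W := by rw [← hWY]; ring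
          _ ≤ (V / L ^ D) * (2 * k) := by
            apply mul_le_mul_of_nonneg_left _ (by positivity)
            linarith
          _ = _ := by ring
      have h7 : 1 ≤ V / L ^ D := by
        rw [le_div_iff₀ (by positivity), one_mul]
        have h8 : L ^ D ≤ L ^ (2 * (2 * A + 2) + 2 * (2 * C + 4) + 4) := hpowle (by omega)
        have h9 := hone D
        linarith
      linarith
    calc ((S.filter (fun s => s ≤ T)).card : ℝ) ≤ (T / k + 1) * R := h4
      _ ≤ 3 * (V / L ^ D) * R := mul_le_mul_of_nonneg_right h5 hR0.le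
      _ = 3 * (V * R) / L ^ D := by ring
      _ ≤ 3 * (S.card * L ^ C) / L ^ D := by
        apply div_le_div_of_nonneg_right _ (by positivity)
        exact mul_le_mul_of_nonneg_left hdens (by norm_num)
      _ = 3 / L ^ 2 * (S.card / L ^ A) := by
        rw [hD, show C + A + 2 = C + (A + 2) by ring, pow_add L C, pow_add L A]
        field_simp
      _ ≤ (1 / 2) * (S.card / L ^ A) := by
        apply mul_le_mul_of_nonneg_right _ (by positivity)
        rw [div_le_iff₀ (by positivity)]
        nlinarith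
  -- the exceptional set of the main theorem
  have hexc2 : ((S.filter (fun s => ¬ Pool.Agent.helper24_UT.Good28 (2 * C + 4 * A + 5 + 1) B X K s)).card : ℝ) ≤
      (1 / 2) * (S.card / L ^ A) := by
    refine hexc.trans ?_
    calc (S.card : ℝ) / L ^ (2 * C + 4 * A + 5) ≤ S.card / (L ^ A * 2) := by
          apply div_le_div_of_nonneg_left hS0 (by positivity)
          calc L ^ A * 2 ≤ L ^ A * L := mul_le_mul_of_nonneg_left (by linarith) (by positivity)
            _ = L ^ (A + 1) := by rw [pow_succ]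
            _ ≤ L ^ (2 * C + 4 * A + 5) := hpowle (by omega)
      _ = _ := by ring
  -- the good elements
  have hgood : ∀ n ∈ S, T < n → Pool.Agent.helper24_UT.Good28 (2 * C + 4 * A + 5 + 1) B X K n → Holds θ A B X n := by
    intro n hn hTn hg
    have hnX : (n : ℝ) ≤ X := by exact_mod_cast hS n hn
    have hnT : (X : ℝ) / L ^ D < n := by
      have : ((T + 1 : ℕ) : ℝ) ≤ n := by exact_mod_cast hTn
      push_cast at this
      linarith
    have hn0 : (0 : ℝ) < n := lt_of_le_of_lt (by positivity) hnT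
    refine ⟨fun x hx1 hx2 => ?_, fun Q hQ y hy => ?_⟩
    · -- (1)
      have hx0 : 0 < x := by linarith
      have hxl : x ^ θ ≤ W + 1 := by
        calc x ^ θ ≤ ((X : ℝ) + 1) ^ θ := Real.rpow_le_rpow hx0.le (by linarith) (by linarith)
          _ ≤ (X : ℝ) ^ θ + 1 ^ θ := Real.rpow_add_le_add_rpow hX0.le zero_le_one (by linarith) (by linarith)
          _ = W + 1 := by rw [Real.one_rpow]
      -- `W / L ^ D ≤ x ^ θ`
      have hxW : W / L ^ D ≤ x ^ θ := by
        have h1 : (X : ℝ) / L ^ D ≤ x := by linarith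
        calc W / L ^ D ≤ W / (L ^ D) ^ θ := by
              apply div_le_div_of_nonneg_left hW0.le (by positivity)
              calc (L ^ D) ^ θ ≤ (L ^ D) ^ (1 : ℝ) := Real.rpow_le_rpow_of_exponent_le (hone D) (by linarith)
                _ = L ^ D := Real.rpow_one _
          _ = ((X : ℝ) / L ^ D) ^ θ := by rw [Real.div_rpow hX0.le (by positivity)]
          _ ≤ x ^ θ := Real.rpow_le_rpow (by positivity) h1 (by linarith)
      have hl1 : 1 ≤ x ^ θ := by
        refine le_trans ?_ hxW
        rw [le_div_iff₀ (by positivity), one_mul]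
        have h8 : L ^ D ≤ L ^ (2 * (2 * A + 2) + 2 * (2 * C + 4) + 4) := hpowle (by omega)
        have h9 := hone D
        linarith
      have hxge : W ≤ x := by
        have h1 : W ≤ X / L ^ D := by
          rw [le_div_iff₀ (by positivity)]
          have h8 : L ^ D ≤ L ^ (2 * (2 * A + 2) + 2 * (2 * C + 4) + 4) := hpowle (by omega)
          have h9 := hone D
          nlinarith
        linarith
      have hxone : 1 ≤ x := by linarith
      have hl2 : (x ^ θ) ^ 2 ≤ x := by
        rw [sq, ← Real.rpow_add hx0]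
        calc x ^ (θ + θ) ≤ x ^ (1 : ℝ) := Real.rpow_le_rpow_of_exponent_le hxone (by linarith)
          _ = x := Real.rpow_one _
      have hlogx : 1 ≤ Real.log x := by
        have h1 : Real.exp 1 ≤ x := by linarith [Real.exp_one_lt_d9]
        calc (1 : ℝ) = Real.log (Real.exp 1) := (Real.log_exp 1).symm
          _ ≤ Real.log x := Real.log_le_log (Real.exp_pos 1) h1
      obtain ⟨y, hP, hy1, hy2, hy3⟩ := Thin.interval_eq hx1 hx2 (show 0 < x ^ θ by linarith)
      have hclose := Thin.logSum_close hx1 hx2 hlogx hl1 hl2 hy1 hy2 hy3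
      have hyK : y ≤ K := by
        have : (y : ℝ) ≤ K := by linarith
        exact_mod_cast this
      have hQ1' : (1 : ℝ) ≤ K * Real.exp (-(B * Real.log (Real.log X) ^ 2)) := by
        refine hQ1.trans ?_
        apply mul_le_mul_of_nonneg_right _ (Real.exp_pos _).le
        linarith
      have h2 := Thin.good_one hg hQ1' hyK
      have h3 : |(Thin.count 1 0 n y : ℝ) - Thin.logSum n y| ≤ K / L ^ (C + 2 * A + 3) := by
        apply abs_le_of_sq_le_sq _ (by positivity)
        rw [div_pow, ← pow_mul, show (C + 2 * A + 3) * 2 = 2 * C + 4 * A + 5 + 1 by ring]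
        exact h2
      have h4 : (K : ℝ) / L ^ (C + 2 * A + 3) ≤ (1 / 2) * (x ^ θ / L ^ A) := by
        calc (K : ℝ) / L ^ (C + 2 * A + 3) ≤ (2 * W) / L ^ (C + 2 * A + 3) := div_le_div_of_nonneg_right hK2W (by positivity)
          _ = 2 / L * (W / L ^ D / L ^ A) := by
            rw [hD, show C + 2 * A + 3 = (C + A + 2) + A + 1 by ring, pow_add L _ 1, pow_add L _ A, pow_one]
            field_simp
          _ ≤ (1 / 2) * (W / L ^ D / L ^ A) := by
            apply mul_le_mul_of_nonneg_right _ (by positivity)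
            rw [div_le_iff₀ hL0]
            linarith
          _ ≤ (1 / 2) * (x ^ θ / L ^ A) := by
            apply mul_le_mul_of_nonneg_left _ (by norm_num)
            exact div_le_div_of_nonneg_right hxW (by positivity)
      have h5 : (3 : ℝ) ≤ (1 / 2) * (x ^ θ / L ^ A) := by
        have h6 : 6 ≤ W / L ^ D / L ^ A := by
          rw [div_div, le_div_iff₀ (by positivity), ← pow_add]
          have h8 : L ^ (D + A) ≤ L ^ (2 * (2 * A + 2) + 2 * (2 * C + 4) + 4) := hpowle (by omega)
          linarith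
        have h7 : W / L ^ D / L ^ A ≤ x ^ θ / L ^ A := div_le_div_of_nonneg_right hxW (by positivity)
        linarith
      unfold P
      rw [hP]
      calc |(Thin.count 1 0 n y : ℝ) - x ^ θ / Real.log x| ≤
            |(Thin.count 1 0 n y : ℝ) - Thin.logSum n y| + |Thin.logSum n y - x ^ θ / Real.log x| := abs_sub_le _ _ _
        _ ≤ (1 / 2) * (x ^ θ / L ^ A) + (1 / 2) * (x ^ θ / L ^ A) := add_le_add (h3.trans h4) (hclose.trans h5)
        _ = _ := by ring
    · -- (2)
      have hnW : (n : ℝ) ^ θ ≤ W := Real.rpow_le_rpow hn0.le hnX (by linarith)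
      have hQ' : (Q : ℝ) ≤ K * Real.exp (-(B * Real.log (Real.log X) ^ 2)) := by
        refine hQ.trans ?_
        apply mul_le_mul_of_nonneg_right _ (Real.exp_pos _).le
        linarith
      have hy' : ∀ q r, y q r ≤ K := by
        intro q r
        have h1 := hy q r
        have : (y q r : ℝ) ≤ K := by linarith
        exact_mod_cast this
      refine (Thin.good_classes hg Q hQ' y hy').trans ?_
      calc (K : ℝ) ^ 2 / L ^ (2 * C + 4 * A + 5 + 1) ≤ (2 * W) ^ 2 / L ^ (2 * C + 4 * A + 5 + 1) := by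
            apply div_le_div_of_nonneg_right _ (by positivity)
            exact pow_le_pow_left₀ hK0.le hK2W 2
        _ ≤ (2 * W) ^ 2 / (L ^ A * 4) := by
            apply div_le_div_of_nonneg_left (by positivity) (by positivity)
            calc L ^ A * 4 ≤ L ^ A * L := mul_le_mul_of_nonneg_left (by linarith) (by positivity)
              _ = L ^ (A + 1) := by rw [pow_succ]
              _ ≤ L ^ (2 * C + 4 * A + 5 + 1) := hpowle (by omega)
        _ = W ^ 2 / L ^ A := by
            field_simp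
            ring
  -- collect
  have hsub : S.filter (fun n => ¬ Holds θ A B X n) ⊆
      (S.filter (fun s => ¬ Pool.Agent.helper24_UT.Good28 (2 * C + 4 * A + 5 + 1) B X K s)) ∪ (S.filter (fun s => s ≤ T)) := by
    intro n hn
    rw [mem_filter] at hn
    rw [mem_union, mem_filter, mem_filter]
    by_contra hcon
    rw [not_or] at hcon
    apply hn.2
    apply hgood n hn.1
    · by_contra h1
      exact hcon.2 ⟨hn.1, not_lt.1 h1⟩
    · by_contra h1
      exact hcon.1 ⟨hn.1, h1⟩
  calc ((S.filter (fun n => ¬ Holds θ A B X n)).card : ℝ) ≤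
      ((S.filter (fun s => ¬ Pool.Agent.helper24_UT.Good28 (2 * C + 4 * A + 5 + 1) B X K s)).card : ℝ) +
      ((S.filter (fun s => s ≤ T)).card : ℝ) := by
        have := (card_le_card hsub).trans (card_union_le _ _)
        exact_mod_cast this
    _ ≤ (1 / 2) * (S.card / L ^ A) + (1 / 2) * (S.card / L ^ A) := add_le_add hexc2 hsmall
    _ = _ := by ring

end Pool.Agent.Results.MP_b8a134_nt.DenseSubsetsAllModuli
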